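import Mathlib

set_option autoImplicit false

namespace Pool.Agent.R731.LK

/-- The quadratic form `g(Ric_L(T), T)` on cubic tensors, in orthonormal components, for a diagonal
curvature operator. -/
noncomputable def QF (K : Fin 4 → Fin 4 → ℝ) (t : Fin 4 → Fin 4 → Fin 4 → ℝ) : ℝ :=
  ∑ i, ∑ j, ∑ k, t i j k * ∑ a,
   (-(K a i) * (-(t i j k) + (if j = i then t a a k else 0) - (if j = a then t a i k else 0) +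
      (if k = i then t a j a else 0) - (if k = a then t a j i else 0)) +
    -(K a j) * ((if i = j then t a a k else 0) - (if i = a then t j a k else 0) - t i j k +
      (if k = j then t i a a else 0) - (if k = a then t i a j else 0)) +
    -(K a k) * ((if i = k then t a j a else 0) - (if i = a then t k j a else 0) +
      (if j = k then t i a a else 0) - (if j = a then t i k a else 0) - t i j k))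

/-- the curvatures -/
def KK (K1 K2 κ : ℝ) : Fin 4 → Fin 4 → ℝ
  | 0, 1 => K1
  | 1, 0 => K1
  | 2, 3 => K2
  | 3, 2 => K2
  | 0, 2 => κ
  | 0, 3 => κ
  | 1, 2 => κ
  | 1, 3 => κ
  | 2, 0 => κ
  | 3, 0 => κ
  | 2, 1 => κ
  | 3, 1 => κ
  | _, _ => 0

/-- coefficient of `K1` -/
def fA (t : Fin 4 → Fin 4 → Fin 4 → ℝ) : ℝ :=
    (3 * t 0 0 0 ^ 2 + 21 * t 0 1 1 ^ 2 + 3 * (t 0 2 2 ^ 2 + t 0 3 3 ^ 2) - 12 * t 0 0 0 * t 0 1 1) +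
    (3 * t 1 1 1 ^ 2 + 21 * t 0 0 1 ^ 2 + 3 * (t 1 2 2 ^ 2 + t 1 3 3 ^ 2) - 12 * t 1 1 1 * t 0 0 1) +
    (6 * (t 0 0 2 - t 1 1 2) ^ 2) +
    (6 * (t 0 0 3 - t 1 1 3) ^ 2) +
    24 * (t 0 1 2) ^ 2 + 24 * (t 0 1 3) ^ 2 + 6 * (t 1 2 3) ^ 2 + 6 * (t 0 2 3) ^ 2

/-- coefficient of `K2` -/
def fB (t : Fin 4 → Fin 4 → Fin 4 → ℝ) : ℝ :=
    (6 * (t 0 2 2 - t 0 3 3) ^ 2) +
    (6 * (t 1 2 2 - t 1 3 3) ^ 2) +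
    (3 * t 2 2 2 ^ 2 + 21 * t 2 3 3 ^ 2 + 3 * (t 0 0 2 ^ 2 + t 1 1 2 ^ 2) - 12 * t 2 2 2 * t 2 3 3) +
    (3 * t 3 3 3 ^ 2 + 21 * t 2 2 3 ^ 2 + 3 * (t 0 0 3 ^ 2 + t 1 1 3 ^ 2) - 12 * t 3 3 3 * t 2 2 3) +
    6 * (t 0 1 2) ^ 2 + 6 * (t 0 1 3) ^ 2 + 24 * (t 1 2 3) ^ 2 + 24 * (t 0 2 3) ^ 2

/-- coefficient of `κ` -/
def fC (t : Fin 4 → Fin 4 → Fin 4 → ℝ) : ℝ :=
    (6 * t 0 0 0 ^ 2 + 18 * t 0 1 1 ^ 2 + 30 * (t 0 2 2 ^ 2 + t 0 3 3 ^ 2) - 12 * (t 0 0 0 + t 0 1 1) * (t 0 2 2 + t 0 3 3)) +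
    (6 * t 1 1 1 ^ 2 + 18 * t 0 0 1 ^ 2 + 30 * (t 1 2 2 ^ 2 + t 1 3 3 ^ 2) - 12 * (t 1 1 1 + t 0 0 1) * (t 1 2 2 + t 1 3 3)) +
    (6 * t 2 2 2 ^ 2 + 18 * t 2 3 3 ^ 2 + 30 * (t 0 0 2 ^ 2 + t 1 1 2 ^ 2) - 12 * (t 2 2 2 + t 2 3 3) * (t 0 0 2 + t 1 1 2)) +
    (6 * t 3 3 3 ^ 2 + 18 * t 2 2 3 ^ 2 + 30 * (t 0 0 3 ^ 2 + t 1 1 3 ^ 2) - 12 * (t 3 3 3 + t 2 2 3) * (t 0 0 3 + t 1 1 3)) +
    60 * ((t 0 1 2) ^ 2 + (t 0 1 3) ^ 2 + (t 1 2 3) ^ 2 + (t 0 2 3) ^ 2)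

set_option maxHeartbeats 0 in
theorem QF_eq (K1 K2 κ : ℝ) (t : Fin 4 → Fin 4 → Fin 4 → ℝ)
    (h1 : ∀ i j k, t i j k = t j i k) (h2 : ∀ i j k, t i j k = t i k j) :
    QF (KK K1 K2 κ) t = K1 * fA t + K2 * fB t + κ * fC t := by
  have e010 : t 0 1 0 = t 0 0 1 := h2 0 1 0
  have e020 : t 0 2 0 = t 0 0 2 := h2 0 2 0
  have e021 : t 0 2 1 = t 0 1 2 := h2 0 2 1
  have e030 : t 0 3 0 = t 0 0 3 := h2 0 3 0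
  have e031 : t 0 3 1 = t 0 1 3 := h2 0 3 1
  have e032 : t 0 3 2 = t 0 2 3 := h2 0 3 2
  have e100 : t 1 0 0 = t 0 0 1 := (h1 1 0 0).trans (h2 0 1 0)
  have e101 : t 1 0 1 = t 0 1 1 := h1 1 0 1
  have e102 : t 1 0 2 = t 0 1 2 := h1 1 0 2
  have e103 : t 1 0 3 = t 0 1 3 := h1 1 0 3
  have e110 : t 1 1 0 = t 0 1 1 := (h2 1 1 0).trans (h1 1 0 1)
  have e120 : t 1 2 0 = t 0 1 2 := (h2 1 2 0).trans (h1 1 0 2)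
  have e121 : t 1 2 1 = t 1 1 2 := h2 1 2 1
  have e130 : t 1 3 0 = t 0 1 3 := (h2 1 3 0).trans (h1 1 0 3)
  have e131 : t 1 3 1 = t 1 1 3 := h2 1 3 1
  have e132 : t 1 3 2 = t 1 2 3 := h2 1 3 2
  have e200 : t 2 0 0 = t 0 0 2 := (h1 2 0 0).trans (h2 0 2 0)
  have e201 : t 2 0 1 = t 0 1 2 := (h1 2 0 1).trans (h2 0 2 1)
  have e202 : t 2 0 2 = t 0 2 2 := h1 2 0 2
  have e203 : t 2 0 3 = t 0 2 3 := h1 2 0 3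
  have e210 : t 2 1 0 = t 0 1 2 := ((h1 2 1 0).trans (h2 1 2 0)).trans (h1 1 0 2)
  have e211 : t 2 1 1 = t 1 1 2 := (h1 2 1 1).trans (h2 1 2 1)
  have e212 : t 2 1 2 = t 1 2 2 := h1 2 1 2
  have e213 : t 2 1 3 = t 1 2 3 := h1 2 1 3
  have e220 : t 2 2 0 = t 0 2 2 := (h2 2 2 0).trans (h1 2 0 2)
  have e221 : t 2 2 1 = t 1 2 2 := (h2 2 2 1).trans (h1 2 1 2)
  have e230 : t 2 3 0 = t 0 2 3 := (h2 2 3 0).trans (h1 2 0 3)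
  have e231 : t 2 3 1 = t 1 2 3 := (h2 2 3 1).trans (h1 2 1 3)
  have e232 : t 2 3 2 = t 2 2 3 := h2 2 3 2
  have e300 : t 3 0 0 = t 0 0 3 := (h1 3 0 0).trans (h2 0 3 0)
  have e301 : t 3 0 1 = t 0 1 3 := (h1 3 0 1).trans (h2 0 3 1)
  have e302 : t 3 0 2 = t 0 2 3 := (h1 3 0 2).trans (h2 0 3 2)
  have e303 : t 3 0 3 = t 0 3 3 := h1 3 0 3
  have e310 : t 3 1 0 = t 0 1 3 := ((h1 3 1 0).trans (h2 1 3 0)).trans (h1 1 0 3)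
  have e311 : t 3 1 1 = t 1 1 3 := (h1 3 1 1).trans (h2 1 3 1)
  have e312 : t 3 1 2 = t 1 2 3 := (h1 3 1 2).trans (h2 1 3 2)
  have e313 : t 3 1 3 = t 1 3 3 := h1 3 1 3
  have e320 : t 3 2 0 = t 0 2 3 := ((h1 3 2 0).trans (h2 2 3 0)).trans (h1 2 0 3)
  have e321 : t 3 2 1 = t 1 2 3 := ((h1 3 2 1).trans (h2 2 3 1)).trans (h1 2 1 3)
  have e322 : t 3 2 2 = t 2 2 3 := (h1 3 2 2).trans (h2 2 3 2)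
  have e323 : t 3 2 3 = t 2 3 3 := h1 3 2 3
  have e330 : t 3 3 0 = t 0 3 3 := (h2 3 3 0).trans (h1 3 0 3)
  have e331 : t 3 3 1 = t 1 3 3 := (h2 3 3 1).trans (h1 3 1 3)
  have e332 : t 3 3 2 = t 2 3 3 := (h2 3 3 2).trans (h1 3 2 3)
  unfold QF fA fB fC
  simp only [Fin.sum_univ_four, KK]
  simp only [Fin.reduceEq, if_true, if_false, reduceIte, e010, e020, e021, e030, e031, e032, e100, e101, e102, e103, e110, e120, e121, e130, e131, e132, e200, e201, e202, e203, e210, e211, e212, e213, e220, e221, e230, e231, e232, e300, e301, e302, e303, e310, e311, e312, e313, e320, e321, e322, e323, e330, e331, e332]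
  ring

theorem fAB_fC (t : Fin 4 → Fin 4 → Fin 4 → ℝ) : 14 * (fA t + fB t) - fC t =
    30 * (t 0 0 0 - 3 * t 0 1 1) ^ 2 + 6 * (t 0 0 0 + t 0 1 1 + t 0 2 2 + t 0 3 3) ^ 2 + 90 * (t 0 2 2 - t 0 3 3) ^ 2 +
    30 * (t 1 1 1 - 3 * t 0 0 1) ^ 2 + 6 * (t 1 1 1 + t 0 0 1 + t 1 2 2 + t 1 3 3) ^ 2 + 90 * (t 1 2 2 - t 1 3 3) ^ 2 +
    30 * (t 2 2 2 - 3 * t 2 3 3) ^ 2 + 6 * (t 2 2 2 + t 2 3 3 + t 0 0 2 + t 1 1 2) ^ 2 + 90 * (t 0 0 2 - t 1 1 2) ^ 2 +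
    30 * (t 3 3 3 - 3 * t 2 2 3) ^ 2 + 6 * (t 3 3 3 + t 2 2 3 + t 0 0 3 + t 1 1 3) ^ 2 + 90 * (t 0 0 3 - t 1 1 3) ^ 2 +
    360 * ((t 0 1 2) ^ 2 + (t 0 1 3) ^ 2 + (t 1 2 3) ^ 2 + (t 0 2 3) ^ 2) := by
  unfold fA fB fC
  ring

theorem QF_nonneg {K1 K2 κ m : ℝ} (hm : 0 ≤ m) (h1 : m ≤ K1) (h2 : m ≤ K2) (h3 : -m ≤ 14 * κ)
    (t : Fin 4 → Fin 4 → Fin 4 → ℝ)
    (s1 : ∀ i j k, t i j k = t j i k) (s2 : ∀ i j k, t i j k = t i k j) :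
    0 ≤ QF (KK K1 K2 κ) t := by
  rw [QF_eq K1 K2 κ t s1 s2]
  have hA : 0 ≤ fA t := by
    have e : fA t = 3 * (t 0 0 0 - 2 * t 0 1 1) ^ 2 + 9 * t 0 1 1 ^ 2 + 3 * (t 0 2 2 ^ 2 + t 0 3 3 ^ 2) +
      (3 * (t 1 1 1 - 2 * t 0 0 1) ^ 2 + 9 * t 0 0 1 ^ 2 + 3 * (t 1 2 2 ^ 2 + t 1 3 3 ^ 2)) +
      6 * (t 0 0 2 - t 1 1 2) ^ 2 + 6 * (t 0 0 3 - t 1 1 3) ^ 2 +
      (24 * t 0 1 2 ^ 2 + 24 * t 0 1 3 ^ 2 + 6 * t 1 2 3 ^ 2 + 6 * t 0 2 3 ^ 2) := by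
      unfold fA; ring
    rw [e]; positivity
  have hB : 0 ≤ fB t := by
    have e : fB t = 3 * (t 2 2 2 - 2 * t 2 3 3) ^ 2 + 9 * t 2 3 3 ^ 2 + 3 * (t 0 0 2 ^ 2 + t 1 1 2 ^ 2) +
      (3 * (t 3 3 3 - 2 * t 2 2 3) ^ 2 + 9 * t 2 2 3 ^ 2 + 3 * (t 0 0 3 ^ 2 + t 1 1 3 ^ 2)) +
      6 * (t 0 2 2 - t 0 3 3) ^ 2 + 6 * (t 1 2 2 - t 1 3 3) ^ 2 +
      (6 * t 0 1 2 ^ 2 + 6 * t 0 1 3 ^ 2 + 24 * t 1 2 3 ^ 2 + 24 * t 0 2 3 ^ 2) := by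
      unfold fB; ring
    rw [e]; positivity
  have hC : 0 ≤ fC t := by
    unfold fC
    nlinarith [sq_nonneg (t 0 0 0 - (t 0 2 2 + t 0 3 3)), sq_nonneg (t 0 1 1 - (t 0 2 2 + t 0 3 3) / 3),
      sq_nonneg (t 0 2 2 - t 0 3 3),
      sq_nonneg (t 1 1 1 - (t 1 2 2 + t 1 3 3)), sq_nonneg (t 0 0 1 - (t 1 2 2 + t 1 3 3) / 3),
      sq_nonneg (t 1 2 2 - t 1 3 3),
      sq_nonneg (t 2 2 2 - (t 0 0 2 + t 1 1 2)), sq_nonneg (t 2 3 3 - (t 0 0 2 + t 1 1 2) / 3),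
      sq_nonneg (t 0 0 2 - t 1 1 2),
      sq_nonneg (t 3 3 3 - (t 0 0 3 + t 1 1 3)), sq_nonneg (t 2 2 3 - (t 0 0 3 + t 1 1 3) / 3),
      sq_nonneg (t 0 0 3 - t 1 1 3), sq_nonneg (t 0 2 2 + t 0 3 3), sq_nonneg (t 1 2 2 + t 1 3 3),
      sq_nonneg (t 0 0 2 + t 1 1 2), sq_nonneg (t 0 0 3 + t 1 1 3), sq_nonneg (t 0 1 2),
      sq_nonneg (t 0 1 3), sq_nonneg (t 0 2 3), sq_nonneg (t 1 2 3)]
  have hD : 0 ≤ 14 * (fA t + fB t) - fC t := by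
    rw [fAB_fC]; positivity
  have e1 : m * fA t ≤ K1 * fA t := mul_le_mul_of_nonneg_right h1 hA
  have e2 : m * fB t ≤ K2 * fB t := mul_le_mul_of_nonneg_right h2 hB
  have e3 : -m * fC t ≤ 14 * κ * fC t := mul_le_mul_of_nonneg_right h3 hC
  have e4 : 0 ≤ m * (14 * (fA t + fB t) - fC t) := mul_nonneg hm hD
  nlinarith

end Pool.Agent.R731.LK
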