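import Pool.Agent.R731.LK.Metric

set_option autoImplicit false

open scoped ContDiff Topology

namespace Pool.Agent.R731.LK

/-- derivative of `L0` in the direction `0` -/
noncomputable def dL0 : Fin 4 → R4 → ℝ
  | 0, x => (1 + x 0 * x 0) / (wu x * wu x)
  | 1, x => -((1 + x 0 * x 0) / (wu x * wu x))
  | 2, _ => 0
  | 3, _ => 0

/-- derivative of `L2` in the direction `2` -/
noncomputable def dL2 : Fin 4 → R4 → ℝ
  | 0, x => -(1 / 900 / (wf x * wf x))
  | 1, x => -(1 / 900 / (wf x * wf x))
  | 2, x => (1 + x 2 * x 2) / (ww x * ww x)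
  | 3, x => -((1 + x 2 * x 2) / (ww x * ww x))

theorem HD_L0 {x : R4} (hx : x ∈ dom) (a : Fin 4) : HD (L0 a) (dL0 a x) 0 x := by
  have h2 := (wu_pos hx).ne'
  have key : HD (fun y : R4 => y 0 / wu y) ((1 + x 0 * x 0) / (wu x * wu x)) 0 x := by
    refine (HD.x0.div (HD_wu x) h2).congr ?_ ?_
    · field_simp; unfold wu; ring
    · field_simp; ring
  fin_cases a
  · exact key
  · exact key.neg.congr rfl (by ring)
  · exact HD.const 0
  · exact HD.const 0

theorem HD_L2 {x : R4} (hx : x ∈ dom) (a : Fin 4) : HD (L2 a) 0 (dL2 a x) x := by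
  have h1 := (wf_pos hx).ne'
  have h3 := (ww_pos hx).ne'
  have key : HD (fun y : R4 => y 2 / ww y) 0 ((1 + x 2 * x 2) / (ww x * ww x)) x := by
    refine (HD.x2.div (HD_ww x) h3).congr ?_ ?_
    · field_simp; ring
    · field_simp; unfold ww; ring
  have key2 : HD (fun y : R4 => 1 / 30 / wf y) 0 (-(1 / 900 / (wf x * wf x))) x := by
    refine ((HD.const (1 / 30)).div (HD_wf x) h1).congr ?_ ?_
    · field_simp; ring
    · field_simp; ring
  fin_cases a
  · exact key2
  · exact key2
  · exact key
  · exact key.neg.congr (by ring) rfl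

/-- derivative of `La a i` in the direction `p` -/
noncomputable def dLa (a i p : Fin 4) (x : R4) : ℝ :=
  if i = 0 then (if p = 0 then dL0 a x else 0) else
    if i = 2 then (if p = 2 then dL2 a x else 0) else 0

theorem HD_La {x : R4} (hx : x ∈ dom) (a i : Fin 4) : HD (La a i) (dLa a i 0 x) (dLa a i 2 x) x := by
  by_cases h0 : i = 0
  · subst h0
    exact (HD_L0 hx a).congr (by simp [dLa]) (by simp [dLa])
  · by_cases h2 : i = 2
    · subst h2
      exact (HD_L2 hx a).congr (by simp [dLa]) (by simp [dLa])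
    · have e : La a i = fun _ => 0 := by funext y; unfold La; rw [if_neg h0, if_neg h2]
      rw [e]
      exact (HD.const 0).congr (by simp [dLa, h0, h2]) (by simp [dLa, h0, h2])

/-- the Christoffel symbols -/
noncomputable def Gam (k i j : Fin 4) (x : R4) : ℝ :=
  (if j = k then La k i x else 0) + (if i = k then La k j x else 0) -
      (if i = j then Gd i x / Gd k x * La i k x else 0)

/-- their derivatives in the direction `p` -/
noncomputable def dGam (k i j p : Fin 4) (x : R4) : ℝ :=
  (if j = k then dLa k i p x else 0) + (if i = k then dLa k j p x else 0) -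
      (if i = j then Gd i x / Gd k x * (2 * (La i p x - La k p x) * La i k x + dLa i k p x) else 0)

theorem HD_ite {F : R4 → ℝ} {a b : ℝ} {x : R4} (P : Prop) [Decidable P] (h : HD F a b x) :
    HD (fun y => if P then F y else 0) (if P then a else 0) (if P then b else 0) x := by
  by_cases hP : P
  · simpa [hP] using h
  · simpa [hP] using HD.const (x := x) 0

theorem HD_Gam {x : R4} (hx : x ∈ dom) (k i j : Fin 4) :
    HD (Gam k i j) (dGam k i j 0 x) (dGam k i j 2 x) x := by
  have hk := (Gd_pos hx k).ne'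
  have h1 := HD_ite (j = k) (HD_La hx k i)
  have h2 := HD_ite (i = k) (HD_La hx k j)
  have h3 := HD_ite (i = j) (((HD_Gd hx i).div (HD_Gd hx k) hk).mul (HD_La hx i k))
  have e0 : ∀ a, La a 0 x = L0 a x := fun a => by simp [La]
  have e2 : ∀ a, La a 2 x = L2 a x := fun a => by simp [La]
  refine ((h1.add h2).sub h3).congr ?_ ?_
  · unfold dGam
    congr 1
    by_cases h : i = j
    · simp only [if_pos h, e0]
      field_simp
    · simp only [if_neg h]
  · unfold dGam
    congr 1
    by_cases h : i = j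
    · simp only [if_pos h, e2]
      field_simp
    · simp only [if_neg h]

theorem dLa_zero (a i p : Fin 4) (x : R4) (h0 : p ≠ 0) (h2 : p ≠ 2) : dLa a i p x = 0 := by
  unfold dLa
  rw [if_neg h0, if_neg h2]
  split_ifs <;> rfl

theorem La_zero (a p : Fin 4) (x : R4) (h0 : p ≠ 0) (h2 : p ≠ 2) : La a p x = 0 := by
  unfold La
  rw [if_neg h0, if_neg h2]

theorem pd_christoffel {x : R4} (hx : x ∈ dom) (k i j p : Fin 4) :
    pd p (christoffel met k i j) x = dGam k i j p x := by
  have h : HD (christoffel met k i j) (dGam k i j 0 x) (dGam k i j 2 x) x := by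
    refine (HD_Gam hx k i j).of_eventuallyEq ?_
    filter_upwards [isOpen_dom.mem_nhds hx] with y hy
    exact christoffel_met hy k i j
  rw [h.pd_eq]
  by_cases h0 : p = 0
  · rw [if_pos h0, h0]
  · by_cases h2 : p = 2
    · rw [if_neg h0, if_pos h2, h2]
    · rw [if_neg h0, if_neg h2]
      unfold dGam
      rw [dLa_zero _ _ _ _ h0 h2, dLa_zero _ _ _ _ h0 h2, dLa_zero _ _ _ _ h0 h2,
        La_zero _ _ _ h0 h2, La_zero _ _ _ h0 h2]
      simp

/-- the sectional curvatures of the coordinate planes -/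
noncomputable def Kc : Fin 4 → Fin 4 → R4 → ℝ
  | 0, 1, x => (1 - ww x / 900) / (wf x * wf x)
  | 1, 0, x => (1 - ww x / 900) / (wf x * wf x)
  | 2, 3, _ => 1
  | 3, 2, _ => 1
  | 0, 2, x => x 2 / 30 / wf x
  | 0, 3, x => x 2 / 30 / wf x
  | 1, 2, x => x 2 / 30 / wf x
  | 1, 3, x => x 2 / 30 / wf x
  | 2, 0, x => x 2 / 30 / wf x
  | 3, 0, x => x 2 / 30 / wf x
  | 2, 1, x => x 2 / 30 / wf x
  | 3, 1, x => x 2 / 30 / wf x
  | _, _, _ => 0

theorem riem_eq1 {x : R4} (hx : x ∈ dom) (l k i j : Fin 4) :
    riem met l k i j x = dGam l j k i x - dGam l i k j x +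
      ∑ m, (Gam l i m x * Gam m j k x - Gam l j m x * Gam m i k x) := by
  unfold riem
  rw [pd_christoffel hx, pd_christoffel hx]
  simp only [christoffel_met hx]
  rfl

set_option linter.unusedSimpArgs false in
set_option linter.unusedTactic false in
set_option linter.unreachableTactic false in
set_option maxHeartbeats 0 in
theorem riem_cases {x : R4} (h1 : wf x ≠ 0) (h2 : wu x ≠ 0) (h3 : ww x ≠ 0)
    (hu : x 0 ^ 2 = 1 - wu x) (hw : x 2 ^ 2 = 1 - ww x) (l k i j : Fin 4) :
    dGam l j k i x - dGam l i k j x +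
      ∑ m, (Gam l i m x * Gam m j k x - Gam l j m x * Gam m i k x) =
    Kc i j x * ((if l = i then (if k = j then Gd j x else 0) else 0) -
      (if l = j then (if k = i then Gd i x else 0) else 0)) := by
  rw [Fin.sum_univ_four]
  fin_cases l <;> fin_cases k <;> fin_cases i <;> fin_cases j
  all_goals simp [dGam, Gam, La, dLa, L0, L2, dL0, dL2, Gd, Kc]
  all_goals try (field_simp)
  all_goals try (ring_nf)
  all_goals try (simp only [hu, hw])
  all_goals try (ring_nf)

/-- The curvature tensor is diagonal. -/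
theorem riem_met {x : R4} (hx : x ∈ dom) (l k i j : Fin 4) :
    riem met l k i j x = Kc i j x * ((if l = i then (if k = j then Gd j x else 0) else 0) -
      (if l = j then (if k = i then Gd i x else 0) else 0)) := by
  rw [riem_eq1 hx]
  have h1 := (wf_pos hx).ne'
  have h2 := (wu_pos hx).ne'
  have h3 := (ww_pos hx).ne'
  have hu : x 0 ^ 2 = 1 - wu x := by unfold wu; ring
  have hw : x 2 ^ 2 = 1 - ww x := by unfold ww; ring
  exact riem_cases h1 h2 h3 hu hw l k i j

end Pool.Agent.R731.LK
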