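import Mathlib

/-!
# The curvature term of the Lichnerowicz Laplacian on symmetric tensors, in a chart
-/

set_option autoImplicit false

open scoped ContDiff

namespace Pool.Agent.R731.LK

variable {n : ℕ}

/-- A Riemannian manifold of dimension `n` with one chart: a nonempty connected open subset `U` of
`ℝⁿ` with a smooth metric, given by the matrix `(g_ij)`. -/
structure RDomain (n : ℕ) where
  /-- the open set -/
  U : Set (Fin n → ℝ)
  /-- the matrix of the metric -/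
  g : (Fin n → ℝ) → Matrix (Fin n) (Fin n) ℝ
  isOpen : IsOpen U
  isConnected : IsConnected U
  smooth : ∀ i j, ContDiffOn ℝ ∞ (fun x => g x i j) U
  posDef : ∀ x ∈ U, (g x).PosDef

/-- The partial derivative `∂_i f`. -/
noncomputable def pd (i : Fin n) (f : (Fin n → ℝ) → ℝ) (x : Fin n → ℝ) : ℝ :=
  fderiv ℝ f x (Pi.single i 1)

/-- The Christoffel symbols `Γ^k_{ij} = ½ g^{kl} (∂_i g_{jl} + ∂_j g_{il} - ∂_l g_{ij})`. -/
noncomputable def christoffel (g : (Fin n → ℝ) → Matrix (Fin n) (Fin n) ℝ) (k i j : Fin n)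
    (x : Fin n → ℝ) : ℝ :=
  ∑ l, (g x)⁻¹ k l * (pd i (fun y => g y j l) x + pd j (fun y => g y i l) x -
    pd l (fun y => g y i j) x) / 2

/-- The curvature tensor: `R(∂_i, ∂_j) ∂_k = ∑ l, riem g l k i j · ∂_l`, where
`R(X, Y) = ∇_X ∇_Y - ∇_Y ∇_X - ∇_[X, Y]`. -/
noncomputable def riem (g : (Fin n → ℝ) → Matrix (Fin n) (Fin n) ℝ) (l k i j : Fin n)
    (x : Fin n → ℝ) : ℝ :=
  pd i (christoffel g l j k) x - pd j (christoffel g l i k) x +
    ∑ m, (christoffel g l i m x * christoffel g m j k x -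
      christoffel g l j m x * christoffel g m i k x)

/-- The components of `R(∂_a, ∂_b) T`, for a `(0,k)`-tensor with components `T c`; the curvature
acts as a derivation: `(R(∂_a, ∂_b) T)(X_1, …, X_k) = -∑ j, T(X_1, …, R(∂_a, ∂_b) X_j, …, X_k)`. -/
noncomputable def curvAct (g : (Fin n → ℝ) → Matrix (Fin n) (Fin n) ℝ) (x : Fin n → ℝ) {k : ℕ}
    (a b : Fin n) (T : (Fin k → Fin n) → ℝ) (c : Fin k → Fin n) : ℝ :=
  -∑ j, ∑ l, riem g l (c j) a b x * T (Function.update c j l)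

/-- The components of `Ric_L(T)`:
`Ric_L(T)(X_1, …, X_k) = ∑ i, g^{ab} (R(∂_a, X_i) T)(X_1, …, X_{i-1}, ∂_b, X_{i+1}, …, X_k)`. -/
noncomputable def ricL (g : (Fin n → ℝ) → Matrix (Fin n) (Fin n) ℝ) (x : Fin n → ℝ) {k : ℕ}
    (T : (Fin k → Fin n) → ℝ) (c : Fin k → Fin n) : ℝ :=
  ∑ i, ∑ a, ∑ b, (g x)⁻¹ a b * curvAct g x a (c i) T (Function.update c i b)

/-- The inner product of two `(0,k)`-tensors:
`g(S, T) = g^{c_1 d_1} ⋯ g^{c_k d_k} S_{c_1 ⋯ c_k} T_{d_1 ⋯ d_k}`. -/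
noncomputable def tinner (g : (Fin n → ℝ) → Matrix (Fin n) (Fin n) ℝ) (x : Fin n → ℝ) {k : ℕ}
    (S T : (Fin k → Fin n) → ℝ) : ℝ :=
  ∑ c : Fin k → Fin n, ∑ d : Fin k → Fin n, (∏ i, (g x)⁻¹ (c i) (d i)) * S c * T d

/-- `T` is a symmetric tensor. -/
def IsSymTensor {k : ℕ} (T : (Fin k → Fin n) → ℝ) : Prop :=
  ∀ (s : Equiv.Perm (Fin k)) (c : Fin k → Fin n), T (c ∘ s) = T c

/-- Condition `(L_k)`: `g(Ric_L(T), T) ≥ 0` for all symmetric `(0,k)`-tensors `T` at all points. -/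
def CondL (M : RDomain n) (k : ℕ) : Prop :=
  ∀ x ∈ M.U, ∀ T : (Fin k → Fin n) → ℝ, IsSymTensor T → 0 ≤ tinner M.g x (ricL M.g x T) T

end Pool.Agent.R731.LK
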