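import Pool.Agent.R731.LK.Main

set_option autoImplicit false

open scoped ContDiff Topology

namespace Pool.Agent.R731.LK

section cubic

variable {x : R4} (hx : x ∈ dom) (T : (Fin 3 → Fin 4) → ℝ) (s : Fin 4 → ℝ)
  (t : Fin 4 → Fin 4 → Fin 4 → ℝ) (hG : ∀ a, Gd a x = s a ^ 2)
  (hT : ∀ i j k, T ![i, j, k] = s i * s j * s k * t i j k)
  (K : Fin 4 → Fin 4 → ℝ) (hK : ∀ a b, Kc a b x = K a b) (hK0 : ∀ a, K a a = 0)

include hx hG hT hK hK0

theorem cA1 (a i j k : Fin 4) : curvAct met x a i T ![a, j, k] =
    s a ^ 2 * (s i * s j * s k) * (-(K a i) * (-(t i j k) + (if j = i then t a a k else 0) -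
      (if j = a then t a i k else 0) + (if k = i then t a j a else 0) -
      (if k = a then t a j i else 0))) := by
  rw [curvAct3 hx, hK]
  simp only [hT, hG, if_true]
  rcases eq_or_ne a i with rfl | hai
  · rw [hK0]; ring
  · rw [if_neg hai]
    rcases eq_or_ne j i with rfl | hji
    · rw [if_pos rfl, if_pos rfl, if_neg hai.symm, if_neg hai.symm]
      rcases eq_or_ne k j with rfl | hki
      · rw [if_pos rfl, if_pos rfl, if_neg hai.symm, if_neg hai.symm]; ring
      · rw [if_neg hki, if_neg hki]
        rcases eq_or_ne k a with rfl | hka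
        · rw [if_pos rfl, if_pos rfl]; ring
        · rw [if_neg hka, if_neg hka]; ring
    · rw [if_neg hji, if_neg hji]
      rcases eq_or_ne j a with rfl | hja
      · rw [if_pos rfl, if_pos rfl]
        rcases eq_or_ne k i with rfl | hki
        · rw [if_pos rfl, if_pos rfl, if_neg hai.symm, if_neg hai.symm]; ring
        · rw [if_neg hki, if_neg hki]
          rcases eq_or_ne k j with rfl | hka
          · rw [if_pos rfl, if_pos rfl]; ring
          · rw [if_neg hka, if_neg hka]; ring
      · rw [if_neg hja, if_neg hja]
        rcases eq_or_ne k i with rfl | hki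
        · rw [if_pos rfl, if_pos rfl, if_neg hai.symm, if_neg hai.symm]; ring
        · rw [if_neg hki, if_neg hki]
          rcases eq_or_ne k a with rfl | hka
          · rw [if_pos rfl, if_pos rfl]; ring
          · rw [if_neg hka, if_neg hka]; ring

theorem cA2 (a i j k : Fin 4) : curvAct met x a j T ![i, a, k] =
    s a ^ 2 * (s i * s j * s k) * (-(K a j) * ((if i = j then t a a k else 0) -
      (if i = a then t j a k else 0) - t i j k + (if k = j then t i a a else 0) -
      (if k = a then t i a j else 0))) := by
  rw [curvAct3 hx, hK]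
  simp only [hT, hG, if_true]
  rcases eq_or_ne a j with rfl | haj
  · rw [hK0]; ring
  · rw [if_neg haj]
    rcases eq_or_ne i j with rfl | hij
    · rw [if_pos rfl, if_pos rfl, if_neg haj.symm, if_neg haj.symm]
      rcases eq_or_ne k i with rfl | hki
      · rw [if_pos rfl, if_pos rfl, if_neg haj.symm, if_neg haj.symm]; ring
      · rw [if_neg hki, if_neg hki]
        rcases eq_or_ne k a with rfl | hka
        · rw [if_pos rfl, if_pos rfl]; ring
        · rw [if_neg hka, if_neg hka]; ring
    · rw [if_neg hij, if_neg hij]
      rcases eq_or_ne i a with rfl | hia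
      · rw [if_pos rfl, if_pos rfl]
        rcases eq_or_ne k j with rfl | hkj
        · rw [if_pos rfl, if_pos rfl, if_neg haj.symm, if_neg haj.symm]; ring
        · rw [if_neg hkj, if_neg hkj]
          rcases eq_or_ne k i with rfl | hka
          · rw [if_pos rfl, if_pos rfl]; ring
          · rw [if_neg hka, if_neg hka]; ring
      · rw [if_neg hia, if_neg hia]
        rcases eq_or_ne k j with rfl | hkj
        · rw [if_pos rfl, if_pos rfl, if_neg haj.symm, if_neg haj.symm]; ring
        · rw [if_neg hkj, if_neg hkj]
          rcases eq_or_ne k a with rfl | hka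
          · rw [if_pos rfl, if_pos rfl]; ring
          · rw [if_neg hka, if_neg hka]; ring

theorem cA3 (a i j k : Fin 4) : curvAct met x a k T ![i, j, a] =
    s a ^ 2 * (s i * s j * s k) * (-(K a k) * ((if i = k then t a j a else 0) -
      (if i = a then t k j a else 0) + (if j = k then t i a a else 0) -
      (if j = a then t i k a else 0) - t i j k)) := by
  rw [curvAct3 hx, hK]
  simp only [hT, hG, if_true]
  rcases eq_or_ne a k with rfl | hak
  · rw [hK0]; ring
  · rw [if_neg hak]
    rcases eq_or_ne i k with rfl | hik
    · rw [if_pos rfl, if_pos rfl, if_neg hak.symm, if_neg hak.symm]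
      rcases eq_or_ne j i with rfl | hji
      · rw [if_pos rfl, if_pos rfl, if_neg hak.symm, if_neg hak.symm]; ring
      · rw [if_neg hji, if_neg hji]
        rcases eq_or_ne j a with rfl | hja
        · rw [if_pos rfl, if_pos rfl]; ring
        · rw [if_neg hja, if_neg hja]; ring
    · rw [if_neg hik, if_neg hik]
      rcases eq_or_ne i a with rfl | hia
      · rw [if_pos rfl, if_pos rfl]
        rcases eq_or_ne j k with rfl | hjk
        · rw [if_pos rfl, if_pos rfl, if_neg hak.symm, if_neg hak.symm]; ring
        · rw [if_neg hjk, if_neg hjk]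
          rcases eq_or_ne j i with rfl | hja
          · rw [if_pos rfl, if_pos rfl]; ring
          · rw [if_neg hja, if_neg hja]; ring
      · rw [if_neg hia, if_neg hia]
        rcases eq_or_ne j k with rfl | hjk
        · rw [if_pos rfl, if_pos rfl, if_neg hak.symm, if_neg hak.symm]; ring
        · rw [if_neg hjk, if_neg hjk]
          rcases eq_or_ne j a with rfl | hja
          · rw [if_pos rfl, if_pos rfl]; ring
          · rw [if_neg hja, if_neg hja]; ring

theorem tinner3 (hs : ∀ a, s a ≠ 0) : tinner met x (ricL met x T) T = QF K t := by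
  rw [tinner_met hx, sum_fin3]
  unfold QF
  refine Finset.sum_congr rfl fun i _ => Finset.sum_congr rfl fun j _ =>
    Finset.sum_congr rfl fun k _ => ?_
  rw [Fin.prod_univ_three]
  change (Gd i x)⁻¹ * (Gd j x)⁻¹ * (Gd k x)⁻¹ * ricL met x T ![i, j, k] * T ![i, j, k] = _
  rw [ricL3 hx, hT, hG, hG, hG]
  have h : ∀ a, ((Gd a x)⁻¹ * curvAct met x a i T ![a, j, k] +
      (Gd a x)⁻¹ * curvAct met x a j T ![i, a, k] + (Gd a x)⁻¹ * curvAct met x a k T ![i, j, a]) =
      (s i * s j * s k) *
   (-(K a i) * (-(t i j k) + (if j = i then t a a k else 0) - (if j = a then t a i k else 0) +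
      (if k = i then t a j a else 0) - (if k = a then t a j i else 0)) +
    -(K a j) * ((if i = j then t a a k else 0) - (if i = a then t j a k else 0) - t i j k +
      (if k = j then t i a a else 0) - (if k = a then t i a j else 0)) +
    -(K a k) * ((if i = k then t a j a else 0) - (if i = a then t k j a else 0) +
      (if j = k then t i a a else 0) - (if j = a then t i k a else 0) - t i j k)) := by
    intro a
    rw [cA1 hx T s t hG hT K hK hK0, cA2 hx T s t hG hT K hK hK0, cA3 hx T s t hG hT K hK hK0, hG]
    have := hs a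
    field_simp
  rw [Finset.sum_congr rfl fun a _ => h a, ← Finset.mul_sum]
  have h1 := hs i
  have h2 := hs j
  have h3 := hs k
  field_simp

end cubic

end Pool.Agent.R731.LK
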