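import Pool.Agent.R731.LK.Curv
import Pool.Agent.R731.LK.Alg

set_option autoImplicit false

open scoped ContDiff Topology

namespace Pool.Agent.R731.LK

theorem curvAct_met {x : R4} (hx : x ∈ dom) {k : ℕ} (a b : Fin 4) (T : (Fin k → Fin 4) → ℝ)
    (c : Fin k → Fin 4) :
    curvAct met x a b T c = -∑ j, Kc a b x * ((if c j = b then Gd b x else 0) *
      T (Function.update c j a) - (if c j = a then Gd a x else 0) * T (Function.update c j b)) := by
  unfold curvAct
  congr 1
  refine Finset.sum_congr rfl fun j _ => ?_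
  simp only [riem_met hx]
  have h : ∀ l, Kc a b x * ((if l = a then (if c j = b then Gd b x else 0) else 0) -
      (if l = b then (if c j = a then Gd a x else 0) else 0)) * T (Function.update c j l) =
      (if l = a then Kc a b x * ((if c j = b then Gd b x else 0) * T (Function.update c j l)) else 0) -
      (if l = b then Kc a b x * ((if c j = a then Gd a x else 0) * T (Function.update c j l)) else 0) := by
    intro l
    by_cases h1 : l = a
    · by_cases h2 : l = b
      · rw [if_pos h1, if_pos h2, if_pos h1, if_pos h2]; ring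
      · rw [if_pos h1, if_neg h2, if_pos h1, if_neg h2]; ring
    · by_cases h2 : l = b
      · rw [if_neg h1, if_pos h2, if_neg h1, if_pos h2]; ring
      · rw [if_neg h1, if_neg h2, if_neg h1, if_neg h2]; ring
  rw [Finset.sum_congr rfl fun l _ => h l, Finset.sum_sub_distrib, Finset.sum_ite_eq',
    Finset.sum_ite_eq', if_pos (Finset.mem_univ _), if_pos (Finset.mem_univ _)]
  ring

theorem ricL_met {x : R4} (hx : x ∈ dom) {k : ℕ} (T : (Fin k → Fin 4) → ℝ)
    (c : Fin k → Fin 4) :
    ricL met x T c = ∑ i, ∑ a, (Gd a x)⁻¹ * curvAct met x a (c i) T (Function.update c i a) := by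
  unfold ricL
  rw [met_inv hx]
  refine Finset.sum_congr rfl fun i _ => Finset.sum_congr rfl fun a _ => ?_
  rw [Finset.sum_eq_single a]
  · rw [Matrix.diagonal_apply_eq]
  · intro b _ hb
    rw [Matrix.diagonal_apply_ne _ hb.symm, zero_mul]
  · intro h; exact absurd (Finset.mem_univ a) h

theorem tinner_met {x : R4} (hx : x ∈ dom) {k : ℕ} (S T : (Fin k → Fin 4) → ℝ) :
    tinner met x S T = ∑ c : Fin k → Fin 4, (∏ i, (Gd (c i) x)⁻¹) * S c * T c := by
  unfold tinner
  rw [met_inv hx]
  refine Finset.sum_congr rfl fun c _ => ?_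
  rw [Finset.sum_eq_single c]
  · simp only [Matrix.diagonal_apply_eq]
  · intro d _ hd
    obtain ⟨i, hi⟩ := Function.ne_iff.1 hd
    have h0 : Matrix.diagonal (fun a => (Gd a x)⁻¹) (c i) (d i) = 0 :=
      Matrix.diagonal_apply_ne _ (Ne.symm hi)
    rw [Finset.prod_eq_zero (Finset.mem_univ i) h0]
    ring
  · intro h; exact absurd (Finset.mem_univ c) h

theorem sum_fin2 (F : (Fin 2 → Fin 4) → ℝ) : ∑ c, F c = ∑ i, ∑ j, F ![i, j] := by
  rw [← Fintype.sum_prod_type' (f := fun i j => F ![i, j])]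
  refine Fintype.sum_equiv (finTwoArrowEquiv (Fin 4)) _ _ fun c => ?_
  congr 1
  ext t
  fin_cases t <;> rfl

theorem sum_fin3 (F : (Fin 3 → Fin 4) → ℝ) : ∑ c, F c = ∑ i, ∑ j, ∑ k, F ![i, j, k] := by
  have h : ∀ i : Fin 4, ∑ j, ∑ k, F ![i, j, k] = ∑ p : Fin 4 × Fin 4, F ![i, p.1, p.2] := fun i =>
    (Fintype.sum_prod_type' (f := fun j k => F ![i, j, k])).symm
  simp only [h]
  rw [← Fintype.sum_prod_type' (f := fun i (p : Fin 4 × Fin 4) => F ![i, p.1, p.2])]
  refine Fintype.sum_equiv
    { toFun := fun c => (c 0, c 1, c 2)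
      invFun := fun p => ![p.1, p.2.1, p.2.2]
      left_inv := fun c => by ext t; fin_cases t <;> rfl
      right_inv := fun p => rfl } _ _ fun c => ?_
  congr 1
  ext t
  fin_cases t <;> rfl

theorem upd30 (i j k a : Fin 4) : Function.update ![i, j, k] 0 a = ![a, j, k] := by
  ext t; fin_cases t <;> rfl
theorem upd31 (i j k a : Fin 4) : Function.update ![i, j, k] 1 a = ![i, a, k] := by
  ext t; fin_cases t <;> rfl
theorem upd32 (i j k a : Fin 4) : Function.update ![i, j, k] 2 a = ![i, j, a] := by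
  ext t; fin_cases t <;> rfl
theorem upd20 (i j a : Fin 4) : Function.update ![i, j] 0 a = ![a, j] := by
  ext t; fin_cases t <;> rfl
theorem upd21 (i j a : Fin 4) : Function.update ![i, j] 1 a = ![i, a] := by
  ext t; fin_cases t <;> rfl

theorem Kc_eq (x : R4) (a b : Fin 4) : Kc a b x =
    KK ((1 - ww x / 900) / (wf x * wf x)) 1 (x 2 / 30 / wf x) a b := by
  fin_cases a <;> fin_cases b <;> rfl

theorem KK_self (K1 K2 κ : ℝ) (a : Fin 4) : KK K1 K2 κ a a = 0 := by
  fin_cases a <;> rfl

theorem curvAct3 {x : R4} (hx : x ∈ dom) (a b : Fin 4) (T : (Fin 3 → Fin 4) → ℝ)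
    (i j k : Fin 4) :
    curvAct met x a b T ![i, j, k] = -Kc a b x * (
      ((if i = b then Gd b x else 0) * T ![a, j, k] - (if i = a then Gd a x else 0) * T ![b, j, k]) +
      ((if j = b then Gd b x else 0) * T ![i, a, k] - (if j = a then Gd a x else 0) * T ![i, b, k]) +
      ((if k = b then Gd b x else 0) * T ![i, j, a] - (if k = a then Gd a x else 0) * T ![i, j, b])) := by
  rw [curvAct_met hx, Fin.sum_univ_three]
  simp only [upd30, upd31, upd32]
  change -(Kc a b x * ((if i = b then Gd b x else 0) * T ![a, j, k] - (if i = a then Gd a x else 0) * T ![b, j, k]) +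
    Kc a b x * ((if j = b then Gd b x else 0) * T ![i, a, k] - (if j = a then Gd a x else 0) * T ![i, b, k]) +
    Kc a b x * ((if k = b then Gd b x else 0) * T ![i, j, a] - (if k = a then Gd a x else 0) * T ![i, j, b])) = _
  ring

theorem curvAct2 {x : R4} (hx : x ∈ dom) (a b : Fin 4) (T : (Fin 2 → Fin 4) → ℝ)
    (i j : Fin 4) :
    curvAct met x a b T ![i, j] = -Kc a b x * (
      ((if i = b then Gd b x else 0) * T ![a, j] - (if i = a then Gd a x else 0) * T ![b, j]) +
      ((if j = b then Gd b x else 0) * T ![i, a] - (if j = a then Gd a x else 0) * T ![i, b])) := by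
  rw [curvAct_met hx, Fin.sum_univ_two]
  simp only [upd20, upd21]
  change -(Kc a b x * ((if i = b then Gd b x else 0) * T ![a, j] - (if i = a then Gd a x else 0) * T ![b, j]) +
    Kc a b x * ((if j = b then Gd b x else 0) * T ![i, a] - (if j = a then Gd a x else 0) * T ![i, b])) = _
  ring

theorem ricL3 {x : R4} (hx : x ∈ dom) (T : (Fin 3 → Fin 4) → ℝ) (i j k : Fin 4) :
    ricL met x T ![i, j, k] = ∑ a, ((Gd a x)⁻¹ * curvAct met x a i T ![a, j, k] +
      (Gd a x)⁻¹ * curvAct met x a j T ![i, a, k] + (Gd a x)⁻¹ * curvAct met x a k T ![i, j, a]) := by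
  rw [ricL_met hx, Fin.sum_univ_three, Finset.sum_add_distrib, Finset.sum_add_distrib]
  simp only [upd30, upd31, upd32]
  rfl

theorem ricL2 {x : R4} (hx : x ∈ dom) (T : (Fin 2 → Fin 4) → ℝ) (i j : Fin 4) :
    ricL met x T ![i, j] = ∑ a, ((Gd a x)⁻¹ * curvAct met x a i T ![a, j] +
      (Gd a x)⁻¹ * curvAct met x a j T ![i, a]) := by
  rw [ricL_met hx, Fin.sum_univ_two, Finset.sum_add_distrib]
  simp only [upd20, upd21]
  rfl

end Pool.Agent.R731.LK
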