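import Pool.Agent.R731.LK.Defs

set_option autoImplicit false

open scoped ContDiff Topology

namespace Pool.Agent.R731.LK

/-- the vector space -/
abbrev R4 : Type := Fin 4 → ℝ

/-- derivative of a function of `(x 0, x 2)` -/
def HD (F : R4 → ℝ) (a b : ℝ) (x : R4) : Prop :=
  HasFDerivAt F (a • (ContinuousLinearMap.proj 0 : R4 →L[ℝ] ℝ) +
    b • (ContinuousLinearMap.proj 2 : R4 →L[ℝ] ℝ)) x

namespace HD

variable {F G : R4 → ℝ} {a b c d : ℝ} {x : R4}

theorem congr (h : HD F a b x) (h1 : a = c) (h2 : b = d) : HD F c d x := by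
  subst h1; subst h2; exact h

theorem const (k : ℝ) : HD (fun _ : R4 => k) 0 0 x := by
  unfold HD; simpa using hasFDerivAt_const k x

theorem x0 : HD (fun y : R4 => y 0) 1 0 x := by
  unfold HD; rw [one_smul, zero_smul, add_zero]
  exact (ContinuousLinearMap.proj (R := ℝ) (φ := fun _ : Fin 4 => ℝ) 0).hasFDerivAt

theorem x2 : HD (fun y : R4 => y 2) 0 1 x := by
  unfold HD; rw [one_smul, zero_smul, zero_add]
  exact (ContinuousLinearMap.proj (R := ℝ) (φ := fun _ : Fin 4 => ℝ) 2).hasFDerivAt

theorem add (h : HD F a b x) (h' : HD G c d x) :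
    HD (fun y => F y + G y) (a + c) (b + d) x := by
  unfold HD at *
  refine (HasFDerivAt.add h h').congr_fderiv ?_
  module

theorem sub (h : HD F a b x) (h' : HD G c d x) :
    HD (fun y => F y - G y) (a - c) (b - d) x := by
  unfold HD at *
  refine (HasFDerivAt.sub h h').congr_fderiv ?_
  module

theorem neg (h : HD F a b x) : HD (fun y => -F y) (-a) (-b) x := by
  unfold HD at *
  refine (HasFDerivAt.neg h).congr_fderiv ?_
  module

theorem mul (h : HD F a b x) (h' : HD G c d x) :
    HD (fun y => F y * G y) (a * G x + F x * c) (b * G x + F x * d) x := by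
  unfold HD at *
  refine (HasFDerivAt.mul h h').congr_fderiv ?_
  module

theorem inv (h : HD F a b x) (hne : F x ≠ 0) :
    HD (fun y => (F y)⁻¹) (-a / F x ^ 2) (-b / F x ^ 2) x := by
  unfold HD at *
  refine ((hasDerivAt_inv hne).comp_hasFDerivAt x h).congr_fderiv ?_
  rw [smul_add, smul_smul, smul_smul]
  congr 2 <;> ring

theorem div (h : HD F a b x) (h' : HD G c d x) (hne : G x ≠ 0) :
    HD (fun y => F y / G y) (a / G x - F x * c / G x ^ 2) (b / G x - F x * d / G x ^ 2) x := by
  have := h.mul (h'.inv hne)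
  simp only [← div_eq_mul_inv] at this
  refine this.congr ?_ ?_ <;> ring

theorem pd_eq (h : HD F a b x) (i : Fin 4) : pd i F x = if i = 0 then a else if i = 2 then b else 0 := by
  unfold HD at h
  unfold pd
  rw [h.fderiv]
  fin_cases i <;> simp

theorem of_eventuallyEq (h : HD F a b x) (hG : G =ᶠ[𝓝 x] F) : HD G a b x :=
  HasFDerivAt.congr_of_eventuallyEq h hG

end HD

/-- the warping function -/
noncomputable def wf (x : R4) : ℝ := 1 + x 2 / 30
/-- `1 - x₀²` -/
noncomputable def wu (x : R4) : ℝ := 1 - x 0 * x 0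
/-- `1 - x₂²` -/
noncomputable def ww (x : R4) : ℝ := 1 - x 2 * x 2

/-- the domain -/
def dom : Set R4 := {x | x 0 ∈ Set.Ioo (-1 : ℝ) 1 ∧ x 2 ∈ Set.Ioo (-1 : ℝ) 1}

theorem isOpen_dom : IsOpen dom :=
  (isOpen_Ioo.preimage (continuous_apply 0)).inter (isOpen_Ioo.preimage (continuous_apply 2))

theorem wf_pos {x : R4} (hx : x ∈ dom) : 0 < wf x := by
  have := hx.2.1; unfold wf; linarith
theorem wu_pos {x : R4} (hx : x ∈ dom) : 0 < wu x := by
  have h1 := hx.1.1; have h2 := hx.1.2; unfold wu; nlinarith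
theorem ww_pos {x : R4} (hx : x ∈ dom) : 0 < ww x := by
  have h1 := hx.2.1; have h2 := hx.2.2; unfold ww; nlinarith

theorem HD_wf (x : R4) : HD wf 0 (1 / 30) x := by
  have := (HD.const (x := x) (1 : ℝ)).add ((HD.x2 (x := x)).mul (HD.const (1 / 30 : ℝ)))
  refine HD.congr (F := wf) ?_ (c := 0) (d := 1 / 30) rfl rfl
  have e : wf = fun y : R4 => 1 + y 2 * (1 / 30) := by funext y; unfold wf; ring
  rw [e]
  exact this.congr (by ring) (by ring)

theorem HD_wu (x : R4) : HD wu (-2 * x 0) 0 x :=
  ((HD.const (x := x) (1 : ℝ)).sub ((HD.x0 (x := x)).mul HD.x0)).congr (by ring) (by ring)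

theorem HD_ww (x : R4) : HD ww 0 (-2 * x 2) x :=
  ((HD.const (x := x) (1 : ℝ)).sub ((HD.x2 (x := x)).mul HD.x2)).congr (by ring) (by ring)

/-- the diagonal entries of the metric -/
noncomputable def Gd : Fin 4 → R4 → ℝ
  | 0, x => wf x * wf x / wu x
  | 1, x => wf x * wf x * wu x
  | 2, x => 1 / ww x
  | 3, x => ww x

/-- logarithmic derivatives `∂_i G_a / (2 G_a)` in the direction `0` -/
noncomputable def L0 : Fin 4 → R4 → ℝ
  | 0, x => x 0 / wu x
  | 1, x => -(x 0 / wu x)
  | 2, _ => 0
  | 3, _ => 0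

/-- logarithmic derivatives `∂_i G_a / (2 G_a)` in the direction `2` -/
noncomputable def L2 : Fin 4 → R4 → ℝ
  | 0, x => 1 / 30 / wf x
  | 1, x => 1 / 30 / wf x
  | 2, x => x 2 / ww x
  | 3, x => -(x 2 / ww x)

theorem Gd_pos {x : R4} (hx : x ∈ dom) (a : Fin 4) : 0 < Gd a x := by
  have h1 := wf_pos hx
  have h2 := wu_pos hx
  have h3 := ww_pos hx
  fin_cases a
  · change 0 < wf x * wf x / wu x; positivity
  · change 0 < wf x * wf x * wu x; positivity
  · change 0 < 1 / ww x; positivity
  · change 0 < ww x; positivity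

theorem HD_Gd {x : R4} (hx : x ∈ dom) (a : Fin 4) :
    HD (Gd a) (2 * Gd a x * L0 a x) (2 * Gd a x * L2 a x) x := by
  have h1 := (wf_pos hx).ne'
  have h2 := (wu_pos hx).ne'
  have h3 := (ww_pos hx).ne'
  fin_cases a
  · change HD (fun y => wf y * wf y / wu y) (2 * (wf x * wf x / wu x) * (x 0 / wu x))
      (2 * (wf x * wf x / wu x) * (1 / 30 / wf x)) x
    refine (((HD_wf x).mul (HD_wf x)).div (HD_wu x) h2).congr ?_ ?_
    · field_simp; ring
    · field_simp; ring
  · change HD (fun y => wf y * wf y * wu y) (2 * (wf x * wf x * wu x) * (-(x 0 / wu x)))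
      (2 * (wf x * wf x * wu x) * (1 / 30 / wf x)) x
    refine (((HD_wf x).mul (HD_wf x)).mul (HD_wu x)).congr ?_ ?_
    · field_simp; ring
    · field_simp; ring
  · change HD (fun y => 1 / ww y) (2 * (1 / ww x) * 0) (2 * (1 / ww x) * (x 2 / ww x)) x
    refine ((HD.const 1).div (HD_ww x) h3).congr ?_ ?_
    · field_simp; ring
    · field_simp; ring
  · change HD ww (2 * ww x * 0) (2 * ww x * (-(x 2 / ww x))) x
    refine (HD_ww x).congr ?_ ?_
    · ring
    · field_simp

/-- the metric -/
noncomputable def met (x : R4) : Matrix (Fin 4) (Fin 4) ℝ := Matrix.diagonal fun a => Gd a x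

theorem met_inv {x : R4} (hx : x ∈ dom) : (met x)⁻¹ = Matrix.diagonal fun a => (Gd a x)⁻¹ := by
  apply Matrix.inv_eq_right_inv
  unfold met
  rw [Matrix.diagonal_mul_diagonal, ← Matrix.diagonal_one]
  congr 1
  funext a
  exact mul_inv_cancel₀ (Gd_pos hx a).ne'

/-- logarithmic derivatives -/
noncomputable def La (a i : Fin 4) (x : R4) : ℝ := if i = 0 then L0 a x else if i = 2 then L2 a x else 0

theorem pd_Gd {x : R4} (hx : x ∈ dom) (a i : Fin 4) : pd i (Gd a) x = 2 * Gd a x * La a i x := by
  rw [(HD_Gd hx a).pd_eq, La]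
  split_ifs <;> ring

theorem pd_met {x : R4} (hx : x ∈ dom) (a b i : Fin 4) :
    pd i (fun y => met y a b) x = if a = b then 2 * Gd a x * La a i x else 0 := by
  by_cases h : a = b
  · subst h
    rw [if_pos rfl, ← pd_Gd hx]
    have : (fun y => met y a a) = Gd a := by funext y; unfold met; simp
    rw [this]
  · rw [if_neg h]
    have : (fun y => met y a b) = fun _ => 0 := by
      funext y; unfold met; exact Matrix.diagonal_apply_ne _ h
    rw [this, (HD.const 0).pd_eq]
    split_ifs <;> rfl

theorem christoffel_met {x : R4} (hx : x ∈ dom) (k i j : Fin 4) :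
    christoffel met k i j x = (if j = k then La k i x else 0) + (if i = k then La k j x else 0) -
      (if i = j then Gd i x / Gd k x * La i k x else 0) := by
  unfold christoffel
  rw [met_inv hx]
  simp only [pd_met hx]
  rw [Finset.sum_eq_single k]
  · rw [Matrix.diagonal_apply_eq]
    have hk := (Gd_pos hx k).ne'
    by_cases h1 : j = k
    · subst h1
      by_cases h2 : i = j
      · subst h2; simp only [if_true]; field_simp
      · simp only [if_true, if_neg h2]; field_simp; ring
    · by_cases h2 : i = k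
      · subst h2
        rw [if_neg h1, if_pos rfl, if_neg (fun h => h1 h.symm), if_neg h1, if_pos rfl,
          if_neg (fun h => h1 h.symm)]
        field_simp; ring
      · by_cases h3 : i = j
        · subst h3
          simp only [if_true, if_neg h2]
          field_simp; ring
        · simp only [if_neg h1, if_neg h2, if_neg h3]; ring
  · intro l _ hl
    rw [Matrix.diagonal_apply_ne _ hl.symm]; ring
  · intro h; exact absurd (Finset.mem_univ k) h

end Pool.Agent.R731.LK
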