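import Pool.Agent.R731.LK.Final

set_option autoImplicit false

open scoped ContDiff Topology

namespace Pool.Agent.R731.LK

theorem smooth_Gd (a : Fin 4) : ContDiffOn ℝ ∞ (Gd a) dom := by
  have hf : ContDiff ℝ ∞ wf := by unfold wf; fun_prop
  have hu : ContDiff ℝ ∞ wu := by unfold wu; fun_prop
  have hw : ContDiff ℝ ∞ ww := by unfold ww; fun_prop
  fin_cases a
  · exact (hf.mul hf).contDiffOn.div hu.contDiffOn fun x hx => (wu_pos hx).ne'
  · exact ((hf.mul hf).mul hu).contDiffOn
  · exact contDiffOn_const.div hw.contDiffOn fun x hx => (ww_pos hx).ne'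
  · exact hw.contDiffOn

theorem convex_dom : Convex ℝ dom := by
  have h0 : Convex ℝ {x : R4 | x 0 ∈ Set.Ioo (-1 : ℝ) 1} :=
    (convex_Ioo (-1 : ℝ) 1).linear_preimage (LinearMap.proj (R := ℝ) (φ := fun _ : Fin 4 => ℝ) 0)
  have h2 : Convex ℝ {x : R4 | x 2 ∈ Set.Ioo (-1 : ℝ) 1} :=
    (convex_Ioo (-1 : ℝ) 1).linear_preimage (LinearMap.proj (R := ℝ) (φ := fun _ : Fin 4 => ℝ) 2)
  exact h0.inter h2

/-- The warped product of two pieces of round spheres. -/
noncomputable def MM : RDomain 4 where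
  U := dom
  g := met
  isOpen := isOpen_dom
  isConnected := (convex_dom.isPathConnected ⟨0, by simp [dom]⟩).isConnected
  smooth i j := by
    by_cases h : i = j
    · subst h
      have : (fun x => met x i i) = Gd i := by funext x; unfold met; simp
      rw [this]
      exact smooth_Gd i
    · have : (fun x => met x i j) = fun _ => 0 := by
        funext x; unfold met; exact Matrix.diagonal_apply_ne _ h
      rw [this]
      exact contDiffOn_const
  posDef x hx := Matrix.PosDef.diagonal fun a => Gd_pos hx a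

theorem condL3 : CondL MM 3 := by
  intro x hx T hT
  change x ∈ dom at hx
  change 0 ≤ tinner met x (ricL met x T) T
  have hG : ∀ a, 0 < Gd a x := Gd_pos hx
  have hs : ∀ a, √(Gd a x) ≠ 0 := fun a => (Real.sqrt_pos.2 (hG a)).ne'
  rw [tinner3 hx T (fun a => √(Gd a x))
    (fun i j k => T ![i, j, k] / (√(Gd i x) * √(Gd j x) * √(Gd k x)))
    (fun a => (Real.sq_sqrt (hG a).le).symm)
    (fun i j k => by
      have h1 := hs i
      have h2 := hs j
      have h3 := hs k
      field_simp)
    (KK ((1 - ww x / 900) / (wf x * wf x)) 1 (x 2 / 30 / wf x)) (Kc_eq x) (KK_self _ _ _) hs]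
  have hf : 0 < wf x := wf_pos hx
  have hf2 : wf x < 31 / 30 := by have := hx.2.2; unfold wf; linarith
  have hf3 : 29 / 30 < wf x := by have := hx.2.1; unfold wf; linarith
  have hw1 : ww x ≤ 1 := by unfold ww; nlinarith [mul_self_nonneg (x 2)]
  refine QF_nonneg (m := 899 / 961) (by norm_num) ?_ (by norm_num) ?_ _ ?_ ?_
  · rw [le_div_iff₀ (by positivity)]
    have : wf x * wf x ≤ 31 / 30 * (31 / 30) := mul_le_mul hf2.le hf2.le hf.le (by norm_num)
    nlinarith
  · have e : x 2 / 30 / wf x = 1 - 1 / wf x := by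
      have : x 2 = 30 * (wf x - 1) := by unfold wf; ring
      rw [this]
      field_simp
    rw [e]
    have h1 : 1 / wf x ≤ 30 / 29 := by
      rw [div_le_div_iff₀ hf (by norm_num)]
      linarith
    linarith
  · intro i j k
    have h := hT (Equiv.swap 0 1) ![i, j, k]
    have e : (![i, j, k] ∘ (Equiv.swap 0 1 : Equiv.Perm (Fin 3))) = ![j, i, k] := by
      ext t; fin_cases t <;> rfl
    rw [e] at h
    rw [← h]
    ring
  · intro i j k
    have h := hT (Equiv.swap 1 2) ![i, j, k]
    have e : (![i, j, k] ∘ (Equiv.swap 1 2 : Equiv.Perm (Fin 3))) = ![i, k, j] := by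
      ext t; fin_cases t <;> rfl
    rw [e] at h
    rw [← h]
    ring

/-- the point where `(L_2)` fails -/
noncomputable def p0 : R4 := ![0, 0, -1 / 2, 0]

theorem p0_mem : p0 ∈ dom := by
  unfold dom p0
  simp only [Set.mem_ofPred_eq, Set.mem_Ioo]
  refine ⟨⟨?_, ?_⟩, ⟨?_, ?_⟩⟩ <;> simp <;> norm_num

/-- The metric of the first factor. -/
noncomputable def S0 (c : Fin 2 → Fin 4) : ℝ :=
  if c 0 = c 1 then (if c 0 = 0 ∨ c 0 = 1 then (59 / 60) ^ 2 else 0) else 0

/-- the metric at this point -/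
noncomputable def G0 : Fin 4 → ℝ
  | 0 => (59 / 60) ^ 2
  | 1 => (59 / 60) ^ 2
  | 2 => 4 / 3
  | 3 => 3 / 4

theorem not_condL2 : ¬ CondL MM 2 := by
  intro h
  have h1 := h p0 p0_mem S0 (by
    intro σ c
    have : σ = 1 ∨ σ = Equiv.swap 0 1 := by
      revert σ; decide
    rcases this with rfl | rfl
    · rfl
    · unfold S0
      simp only [Function.comp, Equiv.swap_apply_left, Equiv.swap_apply_right]
      by_cases h : c 1 = c 0
      · rw [if_pos h, if_pos h.symm, h]
      · rw [if_neg h, if_neg (fun h' => h h'.symm)])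
  change 0 ≤ tinner met p0 (ricL met p0 S0) S0 at h1
  have hx := p0_mem
  have ef : wf p0 = 59 / 60 := by unfold wf p0; simp; norm_num
  have eu : wu p0 = 1 := by unfold wu p0; simp
  have ew : ww p0 = 3 / 4 := by unfold ww p0; simp; norm_num
  have e2 : p0 2 = -1 / 2 := by unfold p0; simp
  have hG : ∀ a, Gd a p0 = G0 a := by
    intro a
    fin_cases a
    · change wf p0 * wf p0 / wu p0 = (59 / 60) ^ 2; rw [ef, eu]; norm_num
    · change wf p0 * wf p0 * wu p0 = (59 / 60) ^ 2; rw [ef, eu]; norm_num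
    · change 1 / ww p0 = 4 / 3; rw [ew]; norm_num
    · change ww p0 = 3 / 4; rw [ew]
  have hK : ∀ a b, Kc a b p0 = KK ((1 - 3 / 4 / 900) / (59 / 60 * (59 / 60))) 1 (-1 / 59) a b := by
    intro a b
    rw [Kc_eq, ef, ew, e2]
    norm_num
  rw [tinner_met hx, sum_fin2] at h1
  have hS : ∀ i j : Fin 4, S0 ![i, j] = if i = j then (if i = 0 ∨ i = 1 then (59 / 60) ^ 2 else 0) else 0 :=
    fun i j => rfl
  simp only [ricL2 hx, curvAct2 hx, hS, hK, hG, Fin.prod_univ_two] at h1
  simp only [Fin.sum_univ_four, Matrix.cons_val_zero, Matrix.cons_val_one,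
    Matrix.cons_val_fin_one] at h1
  simp only [KK, G0] at h1
  simp only [Fin.reduceEq, if_true, if_false, reduceIte, or_true, true_or, or_false, false_or,
    or_self] at h1
  norm_num at h1

end Pool.Agent.R731.LK
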